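import Pool.Agent.MWV.Stmts
import Pool.Agent.MWK.Defs

/-!
# Squad MWV, row DEC: words congruent to `W P Q L` (MP_23468a_al)
-/

namespace Pool.Agent.MWV.H34

open Pool.Agent.Helper14_MV Pool.Agent.Helper2_MV
open Pool.Agent.MWK (pre)

/-- visible pairs -/
structure Vs (U V : List ℕ) (Sp : ℕ → Prop) : Prop where
  v : ∀ s, Sp s → ∀ d, d % 3 ≠ 0 →
    V.filter (fun c => decide (c = d ∨ c = s)) = U.filter (fun c => decide (c = d ∨ c = s))
  s3 : ∀ s, Sp s → s % 3 ≠ 0
  one : ∀ s, Sp s → U.count s = 1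
  h : ∀ s, Sp s → ∀ d, d % 3 = 0 → d ∉ pre V s

theorem fc {d s c : ℕ} (h : c = d ∨ c = s) (l : List ℕ) :
    (c :: l).filter (fun x => decide (x = d ∨ x = s)) =
      c :: l.filter (fun x => decide (x = d ∨ x = s)) :=
  List.filter_cons_of_pos (by simpa using h)

theorem fn {d s c : ℕ} (h : ¬ (c = d ∨ c = s)) (l : List ℕ) :
    (c :: l).filter (fun x => decide (x = d ∨ x = s)) =
      l.filter (fun x => decide (x = d ∨ x = s)) :=
  List.filter_cons_of_neg (by simpa using h)

theorem pre_cons_ne {c q : ℕ} (h : c ≠ q) (l : List ℕ) : pre (c :: l) q = c :: pre l q := by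
  unfold MWK.pre
  simp [h]

theorem head_eq {a b : ℕ} {l m : List ℕ} (h : a :: l = b :: m) : a = b := by
  injection h

theorem step1 {U V : List ℕ} {Sp : ℕ → Prop} (hV : Vs U V Sp) {c : ℕ} (hc : Sp c)
    {N1 R V' : List ℕ} (hU : U = N1 ++ c :: R) (hVV : V = N1 ++ V') : ∃ V1, V' = c :: V1 := by
  have hcN : c ∉ N1 := by
    have := hV.one c hc
    rw [hU, List.count_append, List.count_cons_self] at this
    exact List.count_eq_zero.1 (by omega)
  rcases V' with _ | ⟨d, V1⟩
  · have h2 := hV.v c hc c (hV.s3 c hc)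
    rw [hU, hVV, List.append_nil, List.filter_append, fc (Or.inl rfl)] at h2
    have h3 := congrArg List.length h2
    rw [List.length_append, List.length_cons] at h3
    omega
  · by_cases hd : d = c
    · exact ⟨V1, by rw [hd]⟩
    · exfalso
      by_cases hd3 : d % 3 = 0
      · apply hV.h c hc d hd3
        rw [hVV, MWK.pre_append hcN, pre_cons_ne hd]
        simp
      · have h2 := hV.v c hc d hd3
        rw [hU, hVV, List.filter_append, List.filter_append, fc (c := d) (Or.inl rfl),
          fc (c := c) (Or.inr rfl)] at h2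
        exact hd (head_eq (List.append_cancel_left h2))

theorem step2 {U V : List ℕ} {Sp : ℕ → Prop} (hV : Vs U V Sp) {c s : ℕ} (hc : c % 3 ≠ 0)
    (hs : Sp s) {N1 R V' : List ℕ} (hU : U = N1 ++ c :: s :: R) (hVV : V = N1 ++ V') :
    ∃ V1, V' = c :: V1 := by
  have hsN : s ∉ N1 := by
    have := hV.one s hs
    have e : N1 ++ c :: s :: R = (N1 ++ [c]) ++ s :: R := by simp
    rw [hU, e, List.count_append, List.count_append, List.count_cons_self] at this
    exact List.count_eq_zero.1 (by omega)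
  rcases V' with _ | ⟨d, V1⟩
  · have h2 := hV.v s hs c hc
    rw [hU, hVV, List.append_nil, List.filter_append, fc (Or.inl rfl)] at h2
    have h3 := congrArg List.length h2
    rw [List.length_append, List.length_cons] at h3
    omega
  · by_cases hd : d = c
    · exact ⟨V1, by rw [hd]⟩
    · exfalso
      by_cases hd3 : d % 3 = 0
      · apply hV.h s hs d hd3
        have hds : d ≠ s := by
          rintro rfl
          exact hV.s3 d hs hd3
        rw [hVV, MWK.pre_append hsN, pre_cons_ne hds]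
        simp
      · by_cases hds : d = s
        · subst hds
          have h2 := hV.v d hs c hc
          rw [hU, hVV, List.filter_append, List.filter_append, fc (c := d) (Or.inr rfl),
            fc (c := c) (Or.inl rfl)] at h2
          exact hd (head_eq (List.append_cancel_left h2))
        · have h2 := hV.v s hs d hd3
          rw [hU, hVV, List.filter_append, List.filter_append, fc (c := d) (Or.inl rfl)] at h2
          by_cases hcs : c = s
          · rw [fc (c := c) (Or.inr hcs)] at h2
            exact hds ((head_eq (List.append_cancel_left h2)).trans hcs)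
          · rw [fn (c := c) (by tauto), fc (c := s) (Or.inr rfl)] at h2
            exact hds (head_eq (List.append_cancel_left h2))

theorem pl_cons (e : ℕ) (P : List ℕ) : pl (e :: P) = (3 * e + 8) :: (3 * e + 1) :: pl P := by
  simp [pl]

theorem pr_cons (e : ℕ) (Q : List ℕ) : pr (e :: Q) = (3 * e + 1) :: (3 * e + 8) :: pr Q := by
  simp [pr]

theorem peelP {U V : List ℕ} {Sp : ℕ → Prop} (hV : Vs U V Sp) {t : ℕ} (ht : Sp t) :
    ∀ (P N1 R V' : List ℕ), (∀ e ∈ P, Sp (3 * e + 8)) → U = N1 ++ (pl P ++ t :: R) →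
      V = N1 ++ V' → ∃ V'', V' = pl P ++ t :: V''
  | [], N1, R, V', _, hU, hVV => by
    obtain ⟨V1, h⟩ := step1 hV ht (N1 := N1) (R := R) hU hVV
    exact ⟨V1, h⟩
  | e :: P, N1, R, V', hP, hU, hVV => by
    rw [pl_cons] at hU
    obtain ⟨V1, h1⟩ := step1 hV (hP e List.mem_cons_self) (N1 := N1)
      (R := (3 * e + 1) :: (pl P ++ t :: R)) hU hVV
    have hU2 : U = (N1 ++ [3 * e + 8]) ++ (3 * e + 1) :: (pl P ++ t :: R) := by rw [hU]; simp
    have hV2 : V = (N1 ++ [3 * e + 8]) ++ V1 := by rw [hVV, h1]; simp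
    have h2 : ∃ V2, V1 = (3 * e + 1) :: V2 := by
      rcases P with _ | ⟨e', P⟩
      · exact step2 hV (by omega) ht (R := R) hU2 hV2
      · rw [pl_cons] at hU2
        exact step2 hV (by omega) (hP e' (by simp)) (R := (3 * e' + 1) :: (pl P ++ t :: R)) hU2 hV2
    obtain ⟨V2, h2⟩ := h2
    obtain ⟨V3, h3⟩ := peelP hV ht P (N1 ++ [3 * e + 8, 3 * e + 1]) R V2
      (fun e' he' => hP e' (List.mem_cons_of_mem _ he')) (by rw [hU2]; simp)
      (by rw [hV2, h2]; simp)
    exact ⟨V3, by rw [h1, h2, h3, pl_cons]; simp⟩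

theorem pr_rev : ∀ Q : List ℕ, (pr Q).reverse = pl Q.reverse
  | [] => rfl
  | e :: Q => by
    have h : pl (Q.reverse ++ [e]) = pl Q.reverse ++ [3 * e + 8, 3 * e + 1] := by simp [pl]
    rw [pr_cons, List.reverse_cons, List.reverse_cons, pr_rev Q, List.reverse_cons, h]
    simp

theorem mem_pl {P : List ℕ} {c : ℕ} : c ∈ pl P ↔ ∃ e ∈ P, c = 3 * e + 8 ∨ c = 3 * e + 1 := by
  simp [pl, List.mem_flatMap]

theorem mem_pr {P : List ℕ} {c : ℕ} : c ∈ pr P ↔ ∃ e ∈ P, c = 3 * e + 8 ∨ c = 3 * e + 1 := by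
  simp only [pr, List.mem_flatMap, List.mem_cons, List.not_mem_nil, or_false]
  constructor
  · rintro ⟨e, he, h⟩
    exact ⟨e, he, h.symm⟩
  · rintro ⟨e, he, h⟩
    exact ⟨e, he, h.symm⟩

theorem cpl1 (f : ℕ) : ∀ P : List ℕ, (pl P).count (3 * f + 1) = P.count f
  | [] => rfl
  | e :: P => by
    rw [pl_cons, List.count_cons, List.count_cons, List.count_cons, cpl1 f P]
    have h1 : ((3 * e + 8 == 3 * f + 1) : Bool) = false := by
      rw [beq_eq_false_iff_ne]; omega
    rw [h1]
    by_cases h : e = f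
    · subst h; simp
    · have h2 : ((3 * e + 1 == 3 * f + 1) : Bool) = false := by
        rw [beq_eq_false_iff_ne]; omega
      have h3 : ((e == f) : Bool) = false := by rw [beq_eq_false_iff_ne]; exact h
      rw [h2, h3]; simp

theorem cpl8 (f : ℕ) : ∀ P : List ℕ, (pl P).count (3 * f + 8) = P.count f
  | [] => rfl
  | e :: P => by
    rw [pl_cons, List.count_cons, List.count_cons, List.count_cons, cpl8 f P]
    have h1 : ((3 * e + 1 == 3 * f + 8) : Bool) = false := by
      rw [beq_eq_false_iff_ne]; omega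
    rw [h1]
    by_cases h : e = f
    · subst h; simp
    · have h2 : ((3 * e + 8 == 3 * f + 8) : Bool) = false := by
        rw [beq_eq_false_iff_ne]; omega
      have h3 : ((e == f) : Bool) = false := by rw [beq_eq_false_iff_ne]; exact h
      rw [h2, h3]; simp

theorem cpr (c : ℕ) (Q : List ℕ) : (pr Q).count c = (pl Q.reverse).count c := by
  rw [← pr_rev, List.count_reverse]

theorem cpr1 (f : ℕ) (Q : List ℕ) : (pr Q).count (3 * f + 1) = Q.count f := by
  rw [cpr, cpl1, List.count_reverse]

theorem cpr8 (f : ℕ) (Q : List ℕ) : (pr Q).count (3 * f + 8) = Q.count f := by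
  rw [cpr, cpl8, List.count_reverse]

theorem flt (a t : ℕ) : ∀ l : List ℕ, t ∉ l →
    l.filter (fun x => decide (x = a ∨ x = t)) = List.replicate (l.count a) a
  | [], _ => rfl
  | c :: l, h => by
    have h1 : t ∉ l := fun h' => h (List.mem_cons_of_mem _ h')
    have h2 : c ≠ t := by
      rintro rfl
      exact h List.mem_cons_self
    by_cases hc : c = a
    · subst hc
      rw [fc (Or.inl rfl), flt c t l h1, List.count_cons_self, List.replicate_succ]
    · rw [fn (by tauto), flt a t l h1, List.count_cons_of_ne hc]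

theorem flt' (a t : ℕ) (l : List ℕ) (h : a ∉ l) :
    l.filter (fun x => decide (x = a ∨ x = t)) = List.replicate (l.count t) t := by
  rw [← flt t a l h]
  congr 1
  funext x
  rw [decide_eq_decide]
  exact Or.comm

theorem pair {d s : ℕ} (hds : d ≠ s) {l : List ℕ} (hd : l.count d = 1) (hs : l.count s = 1) :
    l.filter (fun x => decide (x = d ∨ x = s)) = [d, s] ∨
      l.filter (fun x => decide (x = d ∨ x = s)) = [s, d] := by
  have hm : d ∈ l := List.count_pos_iff.1 (by omega)
  obtain ⟨B, hB⟩ := MWK.mem_split hm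
  have hA : d ∉ pre l d := MWK.not_mem_pre l d
  have h1 : d ∉ B := by
    rw [hB, List.count_append, List.count_cons_self] at hd
    exact List.count_eq_zero.1 (by omega)
  have h2 : (pre l d).count s + B.count s = 1 := by
    rw [hB, List.count_append, List.count_cons_of_ne hds] at hs
    exact hs
  rw [hB, List.filter_append, fc (Or.inl rfl), flt' d s _ hA, flt' d s _ h1]
  rcases Nat.eq_zero_or_pos ((pre l d).count s) with h3 | h3
  · left
    rw [h3, show B.count s = 1 by omega]
    rfl
  · right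
    rw [show (pre l d).count s = 1 by omega, show B.count s = 0 by omega]
    rfl

/-! ### powers -/

theorem pow2 {N : ℕ} {S : List ℕ → List ℕ → Prop} (hS : Wo N S) : S (X (N + N) 0) (X N 0) := by
  have h := hS.app hS.pw (hS.refl (X (N - 1) 0))
  have hp := hS.pos
  have e1 : X (N + 1) 0 ++ X (N - 1) 0 = X (N + N) 0 := by
    rw [← List.replicate_add]
    congr 1
    omega
  have e2 : [0] ++ X (N - 1) 0 = X N 0 := by
    have : [0] ++ List.replicate (N - 1) 0 = List.replicate (N - 1 + 1) 0 := by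
      rw [List.replicate_succ]; rfl
    rw [this]
    congr 1
    omega
  rw [e1, e2] at h
  exact h

theorem powk {N : ℕ} {S : List ℕ → List ℕ → Prop} (hS : Wo N S) : ∀ k : ℕ,
    S (X (N * (k + 1)) 0) (X N 0)
  | 0 => by
    rw [Nat.zero_add, Nat.mul_one]
    exact hS.refl _
  | k + 1 => by
    have e1 : X (N * (k + 1 + 1)) 0 = X (N * (k + 1)) 0 ++ X N 0 := by
      rw [← List.replicate_add]
      congr 1
    have e2 : X (N + N) 0 = X N 0 ++ X N 0 := by
      rw [← List.replicate_add]
    rw [e1]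
    refine hS.trans (hS.app (powk hS k) (hS.refl _)) ?_
    rw [← e2]
    exact pow2 hS

/-- the substitution which keeps `d` and `s` only -/
def sb (N d s a : ℕ) : List ℕ := if a = d then X N 0 else if a = s then [2] else []

theorem sb_flat {N d s : ℕ} : ∀ l : List ℕ, s ∉ l →
    l.flatMap (sb N d s) = X (N * l.count d) 0
  | [], _ => by simp
  | c :: l, h => by
    have h1 : s ∉ l := fun h' => h (List.mem_cons_of_mem _ h')
    have h2 : c ≠ s := by
      rintro rfl
      exact h List.mem_cons_self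
    rw [List.flatMap_cons, sb_flat l h1]
    by_cases hc : c = d
    · subst hc
      rw [List.count_cons_self]
      unfold sb
      rw [if_pos rfl, ← List.replicate_add]
      congr 1
      ring
    · rw [List.count_cons_of_ne hc]
      unfold sb
      rw [if_neg hc, if_neg h2]
      rfl

theorem sb_word {N d s : ℕ} (hds : s ≠ d) {A B : List ℕ} (hA : s ∉ A) (hB : s ∉ B) :
    (A ++ s :: B).flatMap (sb N d s) = X (N * A.count d) 0 ++ 2 :: X (N * B.count d) 0 := by
  rw [List.flatMap_append, List.flatMap_cons, sb_flat A hA, sb_flat B hB]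
  have : sb N d s s = [2] := by
    unfold sb
    rw [if_neg hds, if_pos rfl]
  rw [this]
  rfl

theorem sb_S {N : ℕ} {S : List ℕ → List ℕ → Prop} (hS : Wo N S) {d s : ℕ} (hd : d % 3 = 0)
    (hs : s % 3 ≠ 0) {A B A' B' : List ℕ} (hA : s ∉ A) (hB : s ∉ B) (hA' : s ∉ A') (hB' : s ∉ B')
    (h : S (A ++ s :: B) (A' ++ s :: B')) :
    S (X (N * A.count d) 0 ++ 2 :: X (N * B.count d) 0)
      (X (N * A'.count d) 0 ++ 2 :: X (N * B'.count d) 0) := by
  have hsd : s ≠ d := by
    rintro rfl
    exact hs hd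
  rw [← sb_word hsd hA hB, ← sb_word hsd hA' hB']
  apply hS.sub _ ?_ h
  intro h0 hh a ha
  unfold sb at ha
  split at ha
  · rw [List.eq_of_mem_replicate ha]
  · split at ha
    · rename_i h1 h2
      rw [h2] at hh
      exact absurd hh hs
    · simp at ha

theorem hleft {N : ℕ} {S : List ℕ → List ℕ → Prop} (hS : Wo N S)
    (h2 : ¬ S (2 :: X N 0) (X N 0 ++ 2 :: X N 0)) {d s : ℕ} (hd : d % 3 = 0)
    (hs : s % 3 ≠ 0) {A B A' B' : List ℕ} (hA : s ∉ A) (hB : s ∉ B) (hA' : s ∉ A') (hB' : s ∉ B')
    (h : S (A ++ s :: B) (A' ++ s :: B')) (hdA : d ∉ A) : d ∉ A' := by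
  intro hdA'
  apply h2
  have h3 := sb_S hS hd hs hA hB hA' hB' h
  have h4 := hS.app h3 (hS.refl (X N 0))
  rw [List.count_eq_zero.2 hdA, Nat.mul_zero] at h4
  obtain ⟨k, hk⟩ : ∃ k, A'.count d = k + 1 := ⟨A'.count d - 1, by
    have := List.count_pos_iff.2 hdA'
    omega⟩
  have e1 : ∀ i, X (N * i) 0 ++ X N 0 = X (N * (i + 1)) 0 := by
    intro i
    rw [← List.replicate_add]
    congr 1
  have e2 : X 0 0 ++ 2 :: X (N * B.count d) 0 ++ X N 0 = 2 :: X (N * (B.count d + 1)) 0 := by
    rw [← e1]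
    simp
  have e3 : X (N * A'.count d) 0 ++ 2 :: X (N * B'.count d) 0 ++ X N 0 =
      X (N * (k + 1)) 0 ++ 2 :: X (N * (B'.count d + 1)) 0 := by
    rw [← e1 (B'.count d), hk]
    simp
  rw [e2, e3] at h4
  have h5 : S (2 :: X (N * (B.count d + 1)) 0) (2 :: X N 0) :=
    hS.app (hS.refl [2]) (powk hS _)
  have h6 : S (X (N * (k + 1)) 0 ++ 2 :: X (N * (B'.count d + 1)) 0) (X N 0 ++ 2 :: X N 0) :=
    hS.app (powk hS _) (hS.app (hS.refl [2]) (powk hS _))
  exact hS.trans (hS.symm h5) (hS.trans h4 h6)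

theorem hright {N : ℕ} {S : List ℕ → List ℕ → Prop} (hS : Wo N S)
    (h2 : ¬ S (X N 0 ++ [2]) (X N 0 ++ 2 :: X N 0)) {d s : ℕ} (hd : d % 3 = 0)
    (hs : s % 3 ≠ 0) {A B A' B' : List ℕ} (hA : s ∉ A) (hB : s ∉ B) (hA' : s ∉ A') (hB' : s ∉ B')
    (h : S (A ++ s :: B) (A' ++ s :: B')) (hdB : d ∉ B) : d ∉ B' := by
  intro hdB'
  apply h2
  have h3 := sb_S hS hd hs hA hB hA' hB' h
  have h4 := hS.app (hS.refl (X N 0)) h3
  rw [List.count_eq_zero.2 hdB, Nat.mul_zero] at h4
  obtain ⟨k, hk⟩ : ∃ k, B'.count d = k + 1 := ⟨B'.count d - 1, by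
    have := List.count_pos_iff.2 hdB'
    omega⟩
  have e1 : ∀ i, X N 0 ++ X (N * i) 0 = X (N * (i + 1)) 0 := by
    intro i
    rw [← List.replicate_add]
    congr 1
    ring
  have e2 : X N 0 ++ (X (N * A.count d) 0 ++ 2 :: X 0 0) = X (N * (A.count d + 1)) 0 ++ [2] := by
    rw [← e1, List.append_assoc]
    rfl
  have e3 : X N 0 ++ (X (N * A'.count d) 0 ++ 2 :: X (N * B'.count d) 0) =
      X (N * (A'.count d + 1)) 0 ++ 2 :: X (N * (k + 1)) 0 := by
    rw [← e1 (A'.count d), hk, List.append_assoc]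
  rw [e2, e3] at h4
  have h5 : S (X (N * (A.count d + 1)) 0 ++ [2]) (X N 0 ++ [2]) :=
    hS.app (powk hS _) (hS.refl [2])
  have h6 : S (X (N * (A'.count d + 1)) 0 ++ 2 :: X (N * (k + 1)) 0) (X N 0 ++ 2 :: X N 0) :=
    hS.app (powk hS _) (hS.app (hS.refl [2]) (powk hS _))
  exact hS.trans (hS.symm h5) (hS.trans h4 h6)

/-- **DEC** -/
theorem dec (nis : NisStmt) (par : ParStmt) : DecStmt := by
  intro N S hS hsr hsl P Q L V hnd hok hUV
  obtain ⟨hF, hI, hC, hO⟩ := nis N S hS
  obtain ⟨U, hU⟩ : ∃ U, U = W P Q L := ⟨_, rfl⟩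
  rw [← hU] at hUV
  have hU' : U = pl P ++ 2 :: (L ++ 5 :: pr Q) := hU
  -- letters
  have hL2 : ∀ a ∈ L, a % 3 ≠ 2 := by
    intro a ha
    rcases hok.mem a ha with h | ⟨e, -, h⟩ <;> omega
  have h2P : 2 ∉ pl P := by
    rw [mem_pl]
    rintro ⟨e, -, h⟩
    omega
  have h5P : 5 ∉ pl P := by
    rw [mem_pl]
    rintro ⟨e, -, h⟩
    omega
  have h2Q : 2 ∉ pr Q := by
    rw [mem_pr]
    rintro ⟨e, -, h⟩
    omega
  have h5Q : 5 ∉ pr Q := by
    rw [mem_pr]
    rintro ⟨e, -, h⟩
    omega
  have h2L : 2 ∉ L := fun h => hL2 2 h rfl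
  have h5L : 5 ∉ L := fun h => hL2 5 h rfl
  have hsL : ∀ e, 3 * e + 8 ∉ L := fun e h => hL2 _ h (by omega)
  have hPc : P.Nodup := (List.nodup_append.1 hnd).1
  have hQc : Q.Nodup := (List.nodup_append.1 hnd).2.1
  have hcnt1 : ∀ e ∈ P ++ Q, P.count e + Q.count e = 1 := by
    intro e he
    rw [← List.count_append]
    exact List.count_eq_one_of_mem hnd he
  have hcU : ∀ c, U.count c = (pl P).count c + (if 2 = c then 1 else 0) + L.count c +
      (if 5 = c then 1 else 0) + (pr Q).count c := by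
    intro c
    rw [hU', List.count_append, List.count_cons, List.count_append, List.count_cons]
    simp only [beq_iff_eq]
    omega
  have c2 : U.count 2 = 1 := by
    rw [hcU, List.count_eq_zero.2 h2P, List.count_eq_zero.2 h2L, List.count_eq_zero.2 h2Q]
    rfl
  have c5 : U.count 5 = 1 := by
    rw [hcU, List.count_eq_zero.2 h5P, List.count_eq_zero.2 h5L, List.count_eq_zero.2 h5Q]
    rfl
  have c8 : ∀ e ∈ P ++ Q, U.count (3 * e + 8) = 1 := by
    intro e he
    rw [hcU, cpl8, cpr8, List.count_eq_zero.2 (hsL e), if_neg (by omega), if_neg (by omega)]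
    have := hcnt1 e he
    omega
  -- isoterms of lights
  have hz : ∀ f ∈ P ++ Q, ∃ t, (t = 2 ∨ t = 5) ∧
      U.filter (fun c => decide (c = 3 * f + 1 ∨ c = t)) = [3 * f + 1, t, 3 * f + 1] := by
    intro f hf
    have h1 := hcnt1 f hf
    have h2 := hok.one f hf
    rcases Nat.eq_zero_or_pos (P.count f) with h3 | h3
    · refine ⟨5, Or.inr rfl, ?_⟩
      rw [hU', List.filter_append, fn (by omega), List.filter_append, fc (Or.inr rfl),
        flt _ _ _ h5P, flt _ _ _ h5L, flt _ _ _ h5Q, cpl1, cpr1, h2, h3,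
        show Q.count f = 1 by omega]
      rfl
    · refine ⟨2, Or.inl rfl, ?_⟩
      rw [hU', List.filter_append, fc (Or.inr rfl), List.filter_append, fn (by omega),
        flt _ _ _ h2P, flt _ _ _ h2L, flt _ _ _ h2Q, cpl1, cpr1, h2,
        show P.count f = 1 by omega, show Q.count f = 0 by omega]
      rfl
  -- letters of U
  have hmU : ∀ d, d ∈ U → d % 3 ≠ 0 → (∃ f ∈ P ++ Q, d = 3 * f + 1) ∨ d = 2 ∨ d = 5 ∨
      ∃ f ∈ P ++ Q, d = 3 * f + 8 := by
    intro d hd hd3
    rw [hU', List.mem_append, List.mem_cons, List.mem_append, List.mem_cons, mem_pl, mem_pr] at hd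
    rcases hd with ⟨e, he, h | h⟩ | h | h | h | ⟨e, he, h | h⟩
    · exact Or.inr (Or.inr (Or.inr ⟨e, List.mem_append_left _ he, h⟩))
    · exact Or.inl ⟨e, List.mem_append_left _ he, h⟩
    · exact Or.inr (Or.inl h)
    · rcases hok.mem d h with h1 | ⟨e, he, h1⟩
      · exact absurd h1 hd3
      · exact Or.inl ⟨e, he, h1⟩
    · exact Or.inr (Or.inr (Or.inl h))
    · exact Or.inr (Or.inr (Or.inr ⟨e, List.mem_append_right _ he, h⟩))
    · exact Or.inl ⟨e, List.mem_append_right _ he, h⟩
  -- all separators are visible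
  have hvis : ∀ s, s % 3 = 2 → U.count s = 1 → ∀ d, d % 3 ≠ 0 →
      V.filter (fun c => decide (c = d ∨ c = s)) = U.filter (fun c => decide (c = d ∨ c = s)) := by
    intro s hs3 hs1 d hd3
    have hVs : V.count s = 1 := (hO U V s (by omega) hUV).1 hs1
    by_cases hdU : d ∈ U
    · by_cases hds : d = s
      · subst hds
        have e : ∀ l : List ℕ, l.filter (fun c => decide (c = d ∨ c = d)) =
            List.replicate (l.count d) d := by
          intro l
          induction l with
          | nil => rfl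
          | cons a l ih =>
            by_cases ha : a = d
            · subst ha
              rw [fc (Or.inl rfl), ih, List.count_cons_self, List.replicate_succ]
            · rw [fn (by tauto), ih, List.count_cons_of_ne ha]
        rw [e, e, hVs, hs1]
      · have hdd : (∃ f ∈ P ++ Q, d = 3 * f + 1) ∨ U.count d = 1 := by
          rcases hmU d hdU hd3 with h | h | h | ⟨f, hf, h⟩
          · exact Or.inl h
          · right; rw [h]; exact c2
          · right; rw [h]; exact c5
          · right; rw [h]; exact c8 f hf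
        rcases hdd with ⟨f, hf, rfl⟩ | hd1
        · obtain ⟨t, ht, h⟩ := hz f hf
          have ht3 : t % 3 ≠ 0 := by omega
          have ht1 : U.count t = 1 := by
            rcases ht with rfl | rfl
            · exact c2
            · exact c5
          exact par N S hS U V (3 * f + 1) s t hUV hd3 (by omega) ht3 hds (by omega) hs1 ht1 h
        · have h1 := hF (fun c => decide (c = d ∨ c = s)) U V hUV
          rcases pair hds hd1 hs1 with h | h
          · rw [h] at h1
            rw [((hI d s hd3 (by omega) hds _).2.1 h1), h]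
          · rw [h] at h1
            rw [((hI s d (by omega) hd3 (Ne.symm hds) _).2.1 h1), h]
    · have hdV : d ∉ V := fun h => hdU ((hC U V hUV d).2 h)
      rw [flt' d s U hdU, flt' d s V hdV, hs1, hVs]
  -- the left side
  have hspl : ∀ s, s % 3 = 2 → U.count s = 1 → ∃ A B A' B', U = A ++ s :: B ∧ V = A' ++ s :: B' ∧
      s ∉ A ∧ s ∉ B ∧ s ∉ A' ∧ s ∉ B' ∧ A = pre U s ∧ A' = pre V s := by
    intro s hs3 hs1
    have hVs : V.count s = 1 := (hO U V s (by omega) hUV).1 hs1
    obtain ⟨B, hB⟩ := MWK.mem_split (w := U) (y := s) (List.count_pos_iff.1 (by omega))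
    obtain ⟨B', hB'⟩ := MWK.mem_split (w := V) (y := s) (List.count_pos_iff.1 (by omega))
    refine ⟨_, B, _, B', hB, hB', MWK.not_mem_pre _ _, ?_, MWK.not_mem_pre _ _, ?_, rfl, rfl⟩
    · rw [hB, List.count_append, List.count_cons_self] at hs1
      exact List.count_eq_zero.1 (by omega)
    · rw [hB', List.count_append, List.count_cons_self] at hVs
      exact List.count_eq_zero.1 (by omega)
  have hVl : Vs U V (fun s => s = 2 ∨ ∃ e ∈ P, s = 3 * e + 8) := by
    have h1 : ∀ s, (s = 2 ∨ ∃ e ∈ P, s = 3 * e + 8) → s % 3 = 2 ∧ U.count s = 1 := by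
      rintro s (rfl | ⟨e, he, rfl⟩)
      · exact ⟨rfl, c2⟩
      · exact ⟨by omega, c8 e (List.mem_append_left _ he)⟩
    refine ⟨fun s hs => hvis s (h1 s hs).1 (h1 s hs).2, fun s hs => ?_, fun s hs => (h1 s hs).2, ?_⟩
    · have := (h1 s hs).1
      omega
    · intro s hs d hd3
      obtain ⟨h2, h3⟩ := h1 s hs
      obtain ⟨A, B, A', B', hA, hA', n1, n2, n3, n4, hAp, hA'p⟩ := hspl s h2 h3
      rw [← hA'p]
      have h4 := hUV
      rw [hA, hA'] at h4
      refine hleft hS hsl hd3 (by omega) n1 n2 n3 n4 h4 ?_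
      rw [hAp]
      intro hd
      -- the part in front of s is inside pl P
      have h5 : d ∈ pl P := by
        rcases hs with rfl | ⟨e, he, rfl⟩
        · rw [hU', MWK.pre_split h2P] at hd
          exact hd
        · have h6 : 3 * e + 8 ∈ pl P := mem_pl.2 ⟨e, he, Or.inl rfl⟩
          rw [hU', MWK.pre_append_mem h6] at hd
          exact MWK.mem_of_mem_pre hd
      rw [mem_pl] at h5
      obtain ⟨e, -, h5⟩ := h5
      omega
  obtain ⟨V1, hV1⟩ := peelP hVl (t := 2) (Or.inl rfl) P [] (L ++ 5 :: pr Q) V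
    (fun e he => Or.inr ⟨e, he, rfl⟩) hU' rfl
  -- the right side
  have hUr : U.reverse = pl Q.reverse ++ 5 :: (pl P ++ 2 :: L).reverse := by
    rw [hU', ← pr_rev]
    simp
  have hVr : Vs U.reverse V.reverse (fun s => s = 5 ∨ ∃ e ∈ Q.reverse, s = 3 * e + 8) := by
    have h1 : ∀ s, (s = 5 ∨ ∃ e ∈ Q.reverse, s = 3 * e + 8) → s % 3 = 2 ∧ U.count s = 1 := by
      rintro s (rfl | ⟨e, he, rfl⟩)
      · exact ⟨rfl, c5⟩
      · exact ⟨by omega, c8 e (List.mem_append_right _ (List.mem_reverse.1 he))⟩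
    refine ⟨fun s hs d hd => ?_, fun s hs => ?_, fun s hs => ?_, ?_⟩
    · rw [List.filter_reverse, List.filter_reverse, hvis s (h1 s hs).1 (h1 s hs).2 d hd]
    · have := (h1 s hs).1
      omega
    · rw [List.count_reverse]
      exact (h1 s hs).2
    · intro s hs d hd3
      obtain ⟨h2, h3⟩ := h1 s hs
      obtain ⟨A, B, A', B', hA, hA', n1, n2, n3, n4, hAp, hA'p⟩ := hspl s h2 h3
      have e1 : ∀ (C D : List ℕ), s ∉ D → pre (C ++ s :: D).reverse s = D.reverse := by
        intro C D hD
        have : (C ++ s :: D).reverse = D.reverse ++ s :: C.reverse := by simp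
        rw [this, MWK.pre_split (by simpa using hD)]
      rw [hA', e1 A' B' n4, List.mem_reverse]
      have h4 := hUV
      rw [hA, hA'] at h4
      refine hright hS hsr hd3 (by omega) n1 n2 n3 n4 h4 ?_
      intro hd
      have h5 : d ∈ pr Q := by
        have h6 : d ∈ pre U.reverse s := by
          rw [hA, e1 A B n2, List.mem_reverse]
          exact hd
        rcases hs with rfl | ⟨e, he, rfl⟩
        · have h7 : 5 ∉ pl Q.reverse := by
            rw [← pr_rev, List.mem_reverse]
            exact h5Q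
          rw [hUr, MWK.pre_split h7, ← pr_rev, List.mem_reverse] at h6
          exact h6
        · have h7 : 3 * e + 8 ∈ pl Q.reverse := mem_pl.2 ⟨e, he, Or.inl rfl⟩
          rw [hUr, MWK.pre_append_mem h7] at h6
          have h8 := MWK.mem_of_mem_pre h6
          rw [← pr_rev, List.mem_reverse] at h8
          exact h8
      rw [mem_pr] at h5
      obtain ⟨e, -, h5⟩ := h5
      omega
  obtain ⟨V2, hV2⟩ := peelP hVr (t := 5) (Or.inl rfl) Q.reverse [] (pl P ++ 2 :: L).reverse
    V.reverse (fun e he => Or.inr ⟨e, he, rfl⟩) hUr rfl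
  have hV3 : V = V2.reverse ++ 5 :: pr Q := by
    have h1 := congrArg List.reverse hV2
    rw [List.reverse_reverse, ← pr_rev] at h1
    rw [h1]
    simp
  have cV5 : V.count 5 = 1 := (hO U V 5 (by omega) hUV).1 c5
  have h5V2 : 5 ∉ V2.reverse := by
    rw [hV3, List.count_append, List.count_cons_self] at cV5
    exact List.count_eq_zero.1 (by omega)
  have h5V1 : 5 ∈ V1 := by
    have h1 : 5 ∈ V := List.count_pos_iff.1 (by omega)
    rw [hV1, List.mem_append, List.mem_cons] at h1
    rcases h1 with h1 | h1 | h1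
    · exact absurd h1 h5P
    · omega
    · exact h1
  obtain ⟨R', hR'⟩ := MWK.mem_split h5V1
  obtain ⟨L', hL'⟩ : ∃ L', L' = pre V1 5 := ⟨_, rfl⟩
  rw [← hL'] at hR'
  have h5L' : 5 ∉ L' := by
    rw [hL']
    exact MWK.not_mem_pre _ _
  have hV4 : V = (pl P ++ 2 :: L') ++ 5 :: R' := by
    rw [hV1, hR']
    simp
  have h5n : 5 ∉ pl P ++ 2 :: L' := by
    rw [List.mem_append, List.mem_cons]
    rintro (h | h | h)
    · exact h5P h
    · omega
    · exact h5L' h
  have e4 : pl P ++ 2 :: L' = V2.reverse := by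
    have h1 := MWK.pre_split h5n R'
    have h2 := MWK.pre_split h5V2 (pr Q)
    rw [← hV4] at h1
    rw [← hV3] at h2
    rw [← h1, ← h2]
  have e5 : R' = pr Q := by
    rw [e4] at hV4
    rw [hV4] at hV3
    have := List.append_cancel_left hV3
    injection this
  have hVW : V = W P Q L' := by
    rw [hV1, hR', e5]
    rfl
  have hVW' : V = pl P ++ 2 :: (L' ++ 5 :: pr Q) := hVW
  have hcV : ∀ c, V.count c = (pl P).count c + (if 2 = c then 1 else 0) + L'.count c +
      (if 5 = c then 1 else 0) + (pr Q).count c := by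
    intro c
    rw [hVW', List.count_append, List.count_cons, List.count_append, List.count_cons]
    simp only [beq_iff_eq]
    omega
  have hone : ∀ e ∈ P ++ Q, L'.count (3 * e + 1) = 1 := by
    intro e he
    obtain ⟨t, ht, h⟩ := hz e he
    have ht1 : U.count t = 1 := by
      rcases ht with rfl | rfl
      · exact c2
      · exact c5
    have h1 := hvis t (by omega) ht1 (3 * e + 1) (by omega)
    rw [h] at h1
    have h2 : V.count (3 * e + 1) = 2 := by
      have h3 : (V.filter (fun c => decide (c = 3 * e + 1 ∨ c = t))).count (3 * e + 1) =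
          V.count (3 * e + 1) := List.count_filter (by simp)
      rw [← h3, h1, List.count_cons_self, List.count_cons_of_ne (by omega), List.count_cons_self]
      rfl
    have h3 := hcV (3 * e + 1)
    rw [h2, cpl1, cpr1, if_neg (by omega), if_neg (by omega)] at h3
    have := hcnt1 e he
    omega
  have hmem : ∀ a ∈ L', a % 3 = 0 ∨ ∃ e ∈ P ++ Q, a = 3 * e + 1 := by
    intro a ha
    by_cases ha3 : a % 3 = 0
    · exact Or.inl ha3
    · right
      have haV : a ∈ V := by
        rw [hVW']
        simp [ha]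
      have haU := (hC U V hUV a).2 haV
      have hpos : 0 < L'.count a := List.count_pos_iff.2 ha
      rcases hmU a haU ha3 with h | h | h | ⟨f, hf, h⟩
      · exact h
      · subst h
        have h1 := (hO U V 2 (by omega) hUV).1 c2
        have h2 := hcV 2
        rw [h1] at h2
        simp at h2
        omega
      · subst h
        exact absurd ha h5L'
      · subst h
        have h1 := (hO U V _ (by omega) hUV).1 (c8 f hf)
        have h2 := hcV (3 * f + 8)
        rw [h1, cpl8, cpr8, if_neg (by omega), if_neg (by omega)] at h2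
        have := hcnt1 f hf
        omega
  refine ⟨L', hVW, ⟨hmem, hone⟩, ?_⟩
  intro a
  by_cases ha3 : a % 3 = 0
  · have h1 : ∀ M : List ℕ, a ∈ pl P ++ 2 :: (M ++ 5 :: pr Q) ↔ a ∈ M := by
      intro M
      rw [List.mem_append, List.mem_cons, List.mem_append, List.mem_cons, mem_pl, mem_pr]
      constructor
      · rintro (⟨e, -, h⟩ | h | h | h | ⟨e, -, h⟩)
        · omega
        · omega
        · exact h
        · omega
        · omega
      · intro h
        exact Or.inr (Or.inr (Or.inl h))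
    rw [← h1 L', ← h1 L, ← hU', ← hVW']
    exact ((hC U V hUV a).symm)
  · constructor
    · intro h
      rcases hmem a h with h1 | ⟨e, he, rfl⟩
      · exact absurd h1 ha3
      · exact List.count_pos_iff.1 (by rw [hok.one e he]; exact Nat.one_pos)
    · intro h
      rcases hok.mem a h with h1 | ⟨e, he, rfl⟩
      · exact absurd h1 ha3
      · exact List.count_pos_iff.1 (by rw [hone e he]; exact Nat.one_pos)

end Pool.Agent.MWV.H34
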